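import Mathlib

namespace Pool.Agent.Results.MP_201e5f_co.Disproof

open Classical

/-- A finite loopless multigraph on `Fin n` with edges `Fin m`; edge `e` has ends `s e ≠ t e`. -/
structure Multigraph (n m : ℕ) where
  s : Fin m → Fin n
  t : Fin m → Fin n
  loopless : ∀ e, s e ≠ t e

variable {n m : ℕ}

/-- A biorientation: for each edge, the arc `(s e, t e)`, the arc `(t e, s e)`, or both. -/
structure Biorientation (G : Multigraph n m) where
  fwd : Fin m → Prop
  bwd : Fin m → Prop
  some_arc : ∀ e, fwd e ∨ bwd e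

def Arc {G : Multigraph n m} (D : Biorientation G) (u v : Fin n) : Prop :=
  ∃ e, (D.fwd e ∧ G.s e = u ∧ G.t e = v) ∨ (D.bwd e ∧ G.t e = u ∧ G.s e = v)

/-- Out-degree, arcs counted with multiplicity. -/
noncomputable def outdeg {G : Multigraph n m} (D : Biorientation G) (v : Fin n) : ℕ :=
  (Finset.univ.filter fun e => D.fwd e ∧ G.s e = v).card +
    (Finset.univ.filter fun e => D.bwd e ∧ G.t e = v).card

/-- Every induced subdigraph has a kernel. -/
def KernelPerfect {G : Multigraph n m} (D : Biorientation G) : Prop :=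
  ∀ X : Set (Fin n), ∃ U ⊆ X, (∀ u ∈ U, ∀ v ∈ U, ¬ Arc D u v) ∧
    ∀ v ∈ X, v ∉ U → ∃ u ∈ U, Arc D v u

/-- A correspondence assignment: lists, and for each edge a matching between the lists of its ends;
`C e a b` says that `(s e, a)` is matched with `(t e, b)`. -/
structure Assignment (G : Multigraph n m) where
  L : Fin n → Finset ℕ
  C : Fin m → ℕ → ℕ → Prop
  mem : ∀ e a b, C e a b → a ∈ L (G.s e) ∧ b ∈ L (G.t e)
  left_unique : ∀ e a a' b, C e a b → C e a' b → a = a'
  right_unique : ∀ e a b b', C e a b → C e a b' → b = b'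

def Straight {G : Multigraph n m} (A : Assignment G) (e : Fin m) : Prop := ∀ a b, A.C e a b → a = b

def Derangement {G : Multigraph n m} (A : Assignment G) : Prop :=
  ∀ e, ¬ Straight A e → ∀ c, ¬ A.C e c c

def Colourable {G : Multigraph n m} (A : Assignment G) : Prop :=
  ∃ φ : Fin n → ℕ, (∀ v, φ v ∈ A.L v) ∧ ∀ e, ¬ A.C e (φ (G.s e)) (φ (G.t e))

def G0 : Multigraph 3 6 := ⟨![0, 1, 2, 0, 1, 2], ![1, 2, 0, 1, 2, 0], by decide⟩

def D0 : Biorientation G0 := ⟨fun _ => True, fun e => 3 ≤ e.val, fun _ => Or.inl trivial⟩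

def A0 : Assignment G0 where
  L := fun _ => Finset.range 4
  C := fun e a b => a < 4 ∧ b < 4 ∧ (e.val < 3 → a = b) ∧ (3 ≤ e.val → a + b = 3)
  mem := fun _ _ _ h => ⟨Finset.mem_range.2 h.1, Finset.mem_range.2 h.2.1⟩
  left_unique := fun e a a' b h h' => by omega
  right_unique := fun e a b b' h h' => by omega

lemma arc_iff (u v : Fin 3) : Arc D0 u v ↔ u ≠ v := by
  simp only [Arc, D0, true_and]
  revert u v
  decide

/-- A kernel-perfect biorientation of a doubled triangle and a derangement assignment whose twisted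
edges are oriented both ways, with lists of size at least `d⁺ + 1`, and no colouring. -/
theorem result : ∃ (n m : ℕ) (G : Multigraph n m) (D : Biorientation G) (A : Assignment G),
    KernelPerfect D ∧ Derangement A ∧ (∀ e, ¬ Straight A e → D.fwd e ∧ D.bwd e) ∧
    (∀ v, outdeg D v + 1 ≤ (A.L v).card) ∧ ¬ Colourable A := by
  have hs : ∀ e, ¬ Straight A0 e → 3 ≤ e.val := fun e h => by
    by_contra h'
    exact h fun a b hab => hab.2.2.1 (by omega)
  refine ⟨3, 6, G0, D0, A0, fun X => ?_, fun e he c hc => ?_, fun e he => ⟨trivial, hs e he⟩,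
    fun v => ?_, ?_⟩
  · rcases X.eq_empty_or_nonempty with rfl | ⟨x, hx⟩
    · exact ⟨∅, le_rfl, by simp, by simp⟩
    · refine ⟨{x}, by simpa using hx, by simp [arc_iff], fun v _ hv => ⟨x, rfl, ?_⟩⟩
      rw [arc_iff]; exact hv
  · have := hc.2.2.2 (hs e he); omega
  · have h1 : (Finset.univ.filter fun e => D0.fwd e ∧ G0.s e = v).card = 2 := by
      have : ∀ v : Fin 3, (Finset.univ.filter fun e => G0.s e = v).card = 2 := by decide
      rw [← this v]; congr 1; ext e; simp [D0]
    have h2 : (Finset.univ.filter fun e => D0.bwd e ∧ G0.t e = v).card = 1 := by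
      have : ∀ v : Fin 3, (Finset.univ.filter fun e : Fin 6 => 3 ≤ e.val ∧ G0.t e = v).card = 1 := by
        decide
      rw [← this v]; congr 1; ext e; simp [D0]
    simp [outdeg, h1, h2, A0]
  · rintro ⟨φ, h1, h2⟩
    have a0 := Finset.mem_range.1 (h1 0)
    have a1 := Finset.mem_range.1 (h1 1)
    have a2 := Finset.mem_range.1 (h1 2)
    have b0 := h2 0
    have b1 := h2 1
    have b2 := h2 2
    have b3 := h2 3
    have b4 := h2 4
    have b5 := h2 5
    simp [A0, G0] at b0 b1 b2 b3 b4 b5
    omega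

end Pool.Agent.Results.MP_201e5f_co.Disproof
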